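import Pool.Agent.Lib.Brouwer.Kuhn

/-!
# Brouwer's fixed point theorem for boxes

`brouwer_cube`: a continuous self-map of `[0,1]ⁿ` has a fixed point.
`brouwer_box`: the same for `Set.Icc 0 (fun _ => B)` in `ι → ℝ`, `ι` a finite type, `0 ≤ B`.
-/

namespace Pool.Agent.Brouwer

open Finset Classical Filter Topology

/-- Grid point to point of the cube. -/
noncomputable def pt {n : ℕ} (k : ℕ) (y : Fin n → ℕ) : Fin n → ℝ := fun i => (y i : ℝ) / (k + 1)

lemma pt_mem {n : ℕ} (k : ℕ) (y : Fin n → ℕ) (hy : ∀ i, y i ≤ k + 1) :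
    pt k y ∈ Set.Icc (0 : Fin n → ℝ) 1 := by
  constructor
  · intro i
    unfold pt
    simp only [Pi.zero_apply]
    positivity
  · intro i
    unfold pt
    simp only [Pi.one_apply]
    rw [div_le_one (by positivity)]
    exact_mod_cast hy i

theorem brouwer_cube {n : ℕ} (f : (Fin n → ℝ) → (Fin n → ℝ))
    (hf : ContinuousOn f (Set.Icc 0 1)) (hm : ∀ x ∈ Set.Icc (0 : Fin n → ℝ) 1,
      f x ∈ Set.Icc (0 : Fin n → ℝ) 1) :
    ∃ x ∈ Set.Icc (0 : Fin n → ℝ) 1, f x = x := by
  -- labels
  let l : ℕ → (Fin n → ℕ) → Option (Fin n) := fun k y =>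
    if h : ∃ i, 0 < y i ∧ f (pt k y) i ≤ pt k y i then some h.choose else none
  have hl_some : ∀ k y i, l k y = some i → 0 < y i ∧ f (pt k y) i ≤ pt k y i := by
    intro k y i h
    simp only [l] at h
    split_ifs at h with hex
    simp only [Option.some.injEq] at h
    rw [← h]
    exact hex.choose_spec
  have hl_none : ∀ k y, l k y = none → ∀ i, ¬ (0 < y i ∧ f (pt k y) i ≤ pt k y i) := by
    intro k y h i hi
    simp only [l] at h
    split_ifs at h with hex
    exact hex ⟨i, hi⟩
  have hfull : ∀ k : ℕ, ∃ σ : (Fin n → Fin (k + 1)) × Equiv.Perm (Fin n), Full (l k) σ := by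
    intro k
    refine exists_full (Nat.succ_pos k) (l k) ?_ ?_
    · intro y _ i hi h
      have := (hl_some k y i h).1
      omega
    · intro y hy i hi h
      refine hl_none k y h i ⟨by omega, ?_⟩
      have h1 := (hm (pt k y) (pt_mem k y hy)).2 i
      refine h1.trans ?_
      unfold pt
      rw [hi]
      simp only [Pi.one_apply]
      rw [le_div_iff₀ (by positivity)]
      push_cast
      linarith
  choose σ hσ using hfull
  have hσ' : ∀ k (c : Option (Fin n)), ∃ m, l k (vtx (σ k) m) = c := fun k c => hσ k c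
  choose m hm' using hσ'
  -- the base points
  let x : ℕ → Fin n → ℝ := fun k => pt k (vtx (σ k) 0)
  have hmem : ∀ k j, pt k (vtx (σ k) j) ∈ Set.Icc (0 : Fin n → ℝ) 1 := by
    intro k j
    exact pt_mem k _ (fun i => vtx_le _ _ _)
  obtain ⟨a, ha, φ, hφ, hlim⟩ := (isCompact_Icc (a := (0 : Fin n → ℝ)) (b := 1)).tendsto_subseq
    (fun k => hmem k 0)
  have hdist : ∀ (g : ∀ k, Fin (n + 1)),
      Tendsto (fun k => pt (φ k) (vtx (σ (φ k)) (g (φ k)))) atTop (𝓝 a) := by
    intro g
    rw [tendsto_pi_nhds] at hlim ⊢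
    intro i
    have h1 := hlim i
    have h2 : Tendsto (fun k : ℕ => (1 : ℝ) / ((φ k : ℝ) + 1)) atTop (𝓝 0) :=
      tendsto_one_div_add_atTop_nhds_zero_nat.comp hφ.tendsto_atTop
    have h3 : Tendsto (fun k => pt (φ k) (vtx (σ (φ k)) (g (φ k))) i -
        pt (φ k) (vtx (σ (φ k)) 0) i) atTop (𝓝 0) := by
      refine squeeze_zero_norm (fun k => ?_) h2
      unfold pt
      rw [← sub_div, Real.norm_eq_abs, abs_div, abs_of_pos (by positivity : (0 : ℝ) < (φ k : ℝ) + 1)]
      rw [div_le_div_iff_of_pos_right (by positivity)]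
      unfold vtx
      push_cast
      rw [abs_le]
      constructor <;> split_ifs <;> simp
    have h4 := h3.add h1
    simpa using h4
  have hfd : ∀ (g : ∀ k, Fin (n + 1)),
      Tendsto (fun k => f (pt (φ k) (vtx (σ (φ k)) (g (φ k))))) atTop (𝓝 (f a)) := by
    intro g
    have h1 := (hf a ha).tendsto
    refine h1.comp (tendsto_nhdsWithin_iff.2 ⟨hdist g, Eventually.of_forall fun k => hmem _ _⟩)
  refine ⟨a, ha, ?_⟩
  funext i
  apply le_antisymm
  · have h1 := (tendsto_pi_nhds.1 (hdist (fun k => m k (some i)))) i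
    have h2 := (tendsto_pi_nhds.1 (hfd (fun k => m k (some i)))) i
    exact le_of_tendsto_of_tendsto' h2 h1 fun k => (hl_some _ _ _ (hm' (φ k) (some i))).2
  · have h1 := (tendsto_pi_nhds.1 (hdist (fun k => m k none))) i
    have h2 := (tendsto_pi_nhds.1 (hfd (fun k => m k none))) i
    refine le_of_tendsto_of_tendsto' h1 h2 fun k => ?_
    have h3 := hl_none _ _ (hm' (φ k) none) i
    by_contra hcon
    push Not at hcon
    apply h3
    refine ⟨?_, hcon.le⟩
    by_contra h0
    have h0' : vtx (σ (φ k)) (m (φ k) none) i = 0 := by omega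
    have h4 := (hm _ (hmem (φ k) (m (φ k) none))).1 i
    have h5 : pt (φ k) (vtx (σ (φ k)) (m (φ k) none)) i = 0 := by
      unfold pt; rw [h0']; simp
    rw [h5] at hcon
    simp only [Pi.zero_apply] at h4
    linarith

/-- **Brouwer's fixed point theorem for boxes.** -/
theorem brouwer_box {ι : Type*} [Fintype ι] (B : ℝ) (hB : 0 ≤ B) (f : (ι → ℝ) → (ι → ℝ))
    (hf : ContinuousOn f (Set.Icc 0 (fun _ => B)))
    (hm : ∀ x ∈ Set.Icc (0 : ι → ℝ) (fun _ => B), f x ∈ Set.Icc (0 : ι → ℝ) (fun _ => B)) :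
    ∃ x ∈ Set.Icc (0 : ι → ℝ) (fun _ => B), f x = x := by
  rcases hB.eq_or_lt with rfl | hB
  · refine ⟨0, ⟨le_refl _, fun _ => le_refl _⟩, ?_⟩
    have h := hm 0 ⟨le_refl _, fun _ => le_refl _⟩
    exact le_antisymm h.2 h.1
  · let e := Fintype.equivFin ι
    let up : (Fin (Fintype.card ι) → ℝ) → (ι → ℝ) := fun y i => B * y (e i)
    let dn : (ι → ℝ) → (Fin (Fintype.card ι) → ℝ) := fun x j => x (e.symm j) / B
    have hup : Continuous up := by
      refine continuous_pi fun i => ?_
      exact continuous_const.mul (continuous_apply _)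
    have hdn : Continuous dn := by
      refine continuous_pi fun j => ?_
      exact (continuous_apply _).div_const _
    have hupm : ∀ y ∈ Set.Icc (0 : Fin (Fintype.card ι) → ℝ) 1,
        up y ∈ Set.Icc (0 : ι → ℝ) (fun _ => B) := by
      intro y hy
      constructor
      · intro i
        exact mul_nonneg hB.le (hy.1 (e i))
      · intro i
        have := hy.2 (e i)
        simp only [Pi.one_apply] at this
        show B * y (e i) ≤ B
        nlinarith
    have hdnm : ∀ x ∈ Set.Icc (0 : ι → ℝ) (fun _ => B),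
        dn x ∈ Set.Icc (0 : Fin (Fintype.card ι) → ℝ) 1 := by
      intro x hx
      constructor
      · intro j
        exact div_nonneg (hx.1 _) hB.le
      · intro j
        show x (e.symm j) / B ≤ 1
        rw [div_le_one hB]
        exact hx.2 _
    obtain ⟨y, hy, hfy⟩ := brouwer_cube (fun y => dn (f (up y)))
      (hdn.comp_continuousOn (hf.comp hup.continuousOn hupm))
      (fun y hy => hdnm _ (hm _ (hupm y hy)))
    refine ⟨up y, hupm y hy, ?_⟩
    funext i
    have h1 := congrFun hfy (e i)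
    simp only [dn, Equiv.symm_apply_apply] at h1
    show f (up y) i = B * y (e i)
    rw [← h1]
    field_simp

end Pool.Agent.Brouwer
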