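import Mathlib

/-!
# Kuhn's cubical Sperner lemma

A *cell* of the grid `{0,…,k}ⁿ` is a pair `(x, π)` with `x : Fin n → Fin k` and `π` a permutation
of `Fin n`; its vertices are `vtx (x, π) m`, `m : Fin (n+1)`, obtained from `x` by adding one to
the coordinates `π p` with `p ≥ m`.  If the grid points are labelled by `Option (Fin n)` such that
no point with `y i = 0` has label `some i` and no point with `y i = k` has label `none`, then some
cell carries all the labels (in fact an odd number of cells do).
-/

namespace Pool.Agent.Brouwer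

open Finset Classical

/-- The `m`-th vertex of the cell `σ`. -/
def vtx {n k : ℕ} (σ : (Fin n → Fin k) × Equiv.Perm (Fin n)) (m : Fin (n + 1)) : Fin n → ℕ :=
  fun i => (σ.1 i : ℕ) + if (m : ℕ) ≤ (σ.2.symm i : ℕ) then 1 else 0

lemma vtx_le {n k : ℕ} (σ : (Fin n → Fin k) × Equiv.Perm (Fin n)) (m : Fin (n + 1)) (i : Fin n) :
    vtx σ m i ≤ k := by
  unfold vtx
  have := (σ.1 i).isLt
  split_ifs <;> omega

/-- Parity count of doors for a function between finite types of equal cardinality. -/
lemma door_parity {α β : Type*} [Fintype α] [Fintype β] [DecidableEq α] [DecidableEq β]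
    (hc : Fintype.card α = Fintype.card β) (g : α → β) (c₀ : β) :
    (∑ j : α, if (∀ c, c ≠ c₀ → ∃ m, m ≠ j ∧ g m = c) then (1 : ZMod 2) else 0) =
      if Function.Surjective g then 1 else 0 := by
  rw [← Finset.sum_filter, Finset.sum_const, nsmul_eq_mul, mul_one]
  by_cases hs : Function.Surjective g
  · rw [if_pos hs]
    have hb : Function.Bijective g := (Fintype.bijective_iff_surjective_and_card g).2 ⟨hs, hc⟩
    obtain ⟨a, ha⟩ := hs c₀
    have : (univ.filter fun j => ∀ c, c ≠ c₀ → ∃ m, m ≠ j ∧ g m = c) = {a} := by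
      ext j
      simp only [mem_filter, mem_univ, true_and, mem_singleton]
      constructor
      · intro h
        by_contra hne
        have hj : g j ≠ c₀ := fun e => hne (hb.1 (e.trans ha.symm))
        obtain ⟨m, hm, hgm⟩ := h (g j) hj
        exact hm (hb.1 hgm)
      · rintro rfl c hc'
        obtain ⟨m, hm⟩ := hs c
        refine ⟨m, ?_, hm⟩
        rintro rfl
        exact hc' (hm.symm.trans ha)
    rw [this]; simp
  · rw [if_neg hs]
    by_cases hd : ∃ j₀, ∀ c, c ≠ c₀ → ∃ m, m ≠ j₀ ∧ g m = c
    · obtain ⟨j₀, hj₀⟩ := hd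
      -- injectivity off `j₀`
      have hnc : ∀ m, g m ≠ c₀ := by
        intro m hm
        apply hs
        intro c
        by_cases hcc : c = c₀
        · exact ⟨m, hcc ▸ hm⟩
        · obtain ⟨m', _, h'⟩ := hj₀ c hcc
          exact ⟨m', h'⟩
      have hinj : ∀ m m', m ≠ j₀ → m' ≠ j₀ → g m = g m' → m = m' := by
        have hsurj : Set.SurjOn g ((univ.erase j₀ : Finset α) : Set α)
            ((univ.erase c₀ : Finset β) : Set β) := by
          intro c hcm
          simp only [coe_erase, coe_univ, Set.mem_sdiff, Set.mem_univ, Set.mem_singleton_iff,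
            true_and] at hcm
          obtain ⟨m, hm, hgm⟩ := hj₀ c hcm
          exact ⟨m, by simp [hm], hgm⟩
        have hcard : (univ.erase j₀ : Finset α).card = (univ.erase c₀ : Finset β).card := by
          rw [card_erase_of_mem (mem_univ _), card_erase_of_mem (mem_univ _), card_univ, card_univ,
            hc]
        have hmaps : ∀ a ∈ (univ.erase j₀ : Finset α), g a ∈ (univ.erase c₀ : Finset β) := by
          intro a _
          simp [hnc a]
        have := Finset.injOn_of_surjOn_of_card_le g hmaps hsurj hcard.le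
        intro m m' hm hm' h
        exact this (by simp [hm]) (by simp [hm']) h
      obtain ⟨m₀, hm₀, hgm₀⟩ := hj₀ (g j₀) (hnc j₀)
      have : (univ.filter fun j => ∀ c, c ≠ c₀ → ∃ m, m ≠ j ∧ g m = c) = {j₀, m₀} := by
        ext j
        simp only [mem_filter, mem_univ, true_and, mem_insert, mem_singleton]
        constructor
        · intro h
          by_contra hne
          push Not at hne
          obtain ⟨m, hm, hgm⟩ := h (g j) (hnc j)
          by_cases hmj : m = j₀
          · subst hmj
            exact hne.2 (hinj _ _ hne.1 hm₀ (hgm.symm.trans hgm₀.symm))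
          · exact hm (hinj _ _ hmj hne.1 hgm)
        · rintro (rfl | rfl)
          · exact hj₀
          · intro c hcc
            obtain ⟨m, hm, hgm⟩ := hj₀ c hcc
            by_cases hmm : m = j
            · subst hmm
              exact ⟨j₀, fun e => hm₀ e.symm, hgm₀ ▸ hgm⟩
            · exact ⟨m, hmm, hgm⟩
      rw [this, card_pair (fun e => hm₀ e.symm)]
      decide
    · push Not at hd
      have : (univ.filter fun j => ∀ c, c ≠ c₀ → ∃ m, m ≠ j ∧ g m = c) = ∅ := by
        ext j
        simp only [mem_filter, mem_univ, true_and, notMem_empty, iff_false]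
        intro h
        obtain ⟨c, hc1, hc2⟩ := hd j
        obtain ⟨m, hm1, hm2⟩ := h c hc1
        exact hc2 m hm1 hm2
      rw [this]; simp


/-! ### Moving to the neighbouring cell -/

section moves

variable {n k : ℕ}

/-- Neighbour of `σ` across the facet opposite to the top vertex. -/
def down (σ : (Fin (n + 1) → Fin k) × Equiv.Perm (Fin (n + 1))) :
    (Fin (n + 1) → Fin k) × Equiv.Perm (Fin (n + 1)) :=
  (Function.update σ.1 (σ.2 0) ⟨(σ.1 (σ.2 0) : ℕ) - 1, by have := (σ.1 (σ.2 0)).isLt; omega⟩,
    σ.2 * finRotate (n + 1))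

/-- Neighbour of `σ` across the facet opposite to the bottom vertex. -/
def up (σ : (Fin (n + 1) → Fin k) × Equiv.Perm (Fin (n + 1))) :
    (Fin (n + 1) → Fin k) × Equiv.Perm (Fin (n + 1)) :=
  (Function.update σ.1 (σ.2 (Fin.last n))
    (if h : (σ.1 (σ.2 (Fin.last n)) : ℕ) + 1 < k then ⟨(σ.1 (σ.2 (Fin.last n)) : ℕ) + 1, h⟩
      else σ.1 (σ.2 (Fin.last n))),
    σ.2 * (finRotate (n + 1))⁻¹)

lemma rot_last : finRotate (n + 1) (Fin.last n) = 0 := finRotate_last

lemma rot_inv_zero : (finRotate (n + 1))⁻¹ 0 = Fin.last n := by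
  rw [Equiv.Perm.inv_eq_iff_eq, rot_last]

lemma rot_inv_val (p : Fin (n + 1)) (hp : p ≠ 0) :
    (((finRotate (n + 1))⁻¹ p : Fin (n + 1)) : ℕ) = (p : ℕ) - 1 := by
  have h0 : (p : ℕ) ≠ 0 := fun h => hp (Fin.ext (by simpa using h))
  have hlt := p.isLt
  have : (finRotate (n + 1))⁻¹ p = ⟨(p : ℕ) - 1, by omega⟩ := by
    rw [Equiv.Perm.inv_eq_iff_eq]
    have h1 : (p : ℕ) - 1 < n := by omega
    rw [finRotate_of_lt h1]
    ext
    simp
    omega
  rw [this]

lemma up_down (σ : (Fin (n + 1) → Fin k) × Equiv.Perm (Fin (n + 1)))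
    (h : 0 < (σ.1 (σ.2 0) : ℕ)) : up (down σ) = σ := by
  obtain ⟨x, π⟩ := σ
  simp only at h
  have hk := (x (π 0)).isLt
  have hl : (π * finRotate (n + 1)) (Fin.last n) = π 0 := by
    rw [Equiv.Perm.mul_apply, rot_last]
  unfold up down
  simp only [hl, Function.update_self, Function.update_idem]
  ext1
  · simp only
    rw [dif_pos (by omega)]
    rw [Function.update_eq_iff]
    refine ⟨?_, fun _ _ => rfl⟩
    ext
    simp
    omega
  · simp [mul_assoc]

lemma down_up (σ : (Fin (n + 1) → Fin k) × Equiv.Perm (Fin (n + 1)))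
    (h : (σ.1 (σ.2 (Fin.last n)) : ℕ) + 1 < k) : down (up σ) = σ := by
  obtain ⟨x, π⟩ := σ
  simp only at h
  have hl : (π * (finRotate (n + 1))⁻¹) 0 = π (Fin.last n) := by
    rw [Equiv.Perm.mul_apply, rot_inv_zero]
  unfold up down
  simp only [hl, Function.update_self, Function.update_idem, dif_pos h]
  ext1
  · simp only
    rw [Function.update_eq_iff]
    refine ⟨?_, fun _ _ => rfl⟩
    ext
    simp
  · simp [mul_assoc]

lemma vtx_down (σ : (Fin (n + 1) → Fin k) × Equiv.Perm (Fin (n + 1)))
    (h : 0 < (σ.1 (σ.2 0) : ℕ)) (m : Fin (n + 1)) :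
    vtx (down σ) m.castSucc = vtx σ m.succ := by
  obtain ⟨x, π⟩ := σ
  simp only at h
  funext i
  unfold vtx down
  simp only
  have hsymm : (π * finRotate (n + 1)).symm i = (finRotate (n + 1))⁻¹ (π.symm i) := by
    rw [Equiv.symm_apply_eq]
    simp
  rw [hsymm]
  by_cases hi : i = π 0
  · subst hi
    have hm := m.isLt
    rw [Function.update_self]
    simp only [Equiv.symm_apply_apply, rot_inv_zero, Fin.val_castSucc, Fin.val_last, Fin.val_succ,
      Fin.val_zero]
    rw [if_pos (by omega), if_neg (by omega)]
    omega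
  · rw [Function.update_of_ne hi]
    have hne : π.symm i ≠ 0 := by
      intro e
      apply hi
      rw [← e, Equiv.apply_symm_apply]
    rw [rot_inv_val _ hne]
    have h0 : (π.symm i : ℕ) ≠ 0 := fun h => hne (Fin.ext (by simpa using h))
    simp only [Fin.val_castSucc, Fin.val_succ]
    congr 1
    by_cases hh : (m : ℕ) + 1 ≤ (π.symm i : ℕ)
    · rw [if_pos hh, if_pos (by omega)]
    · rw [if_neg hh, if_neg (by omega)]

lemma down_pos_last (σ : (Fin (n + 1) → Fin k) × Equiv.Perm (Fin (n + 1)))
    (h : 0 < (σ.1 (σ.2 0) : ℕ)) :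
    ((down σ).1 ((down σ).2 (Fin.last n)) : ℕ) + 1 < k := by
  obtain ⟨x, π⟩ := σ
  simp only at h
  have hl : (π * finRotate (n + 1)) (Fin.last n) = π 0 := by
    rw [Equiv.Perm.mul_apply, rot_last]
  unfold down
  simp only [hl, Function.update_self]
  have := (x (π 0)).isLt
  omega

lemma up_pos_zero (σ : (Fin (n + 1) → Fin k) × Equiv.Perm (Fin (n + 1)))
    (h : (σ.1 (σ.2 (Fin.last n)) : ℕ) + 1 < k) :
    0 < ((up σ).1 ((up σ).2 0) : ℕ) := by
  obtain ⟨x, π⟩ := σ
  simp only at h
  have hl : (π * (finRotate (n + 1))⁻¹) 0 = π (Fin.last n) := by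
    rw [Equiv.Perm.mul_apply, rot_inv_zero]
  unfold up
  simp only [hl, Function.update_self, dif_pos h]
  omega

/-- Swap two consecutive positions. -/
def mid (σ : (Fin (n + 1) → Fin k) × Equiv.Perm (Fin (n + 1))) (j : ℕ) (hj : j < n) :
    (Fin (n + 1) → Fin k) × Equiv.Perm (Fin (n + 1)) :=
  (σ.1, σ.2 * Equiv.swap ⟨j, by omega⟩ ⟨j + 1, by omega⟩)

lemma mid_mid (σ : (Fin (n + 1) → Fin k) × Equiv.Perm (Fin (n + 1))) (j : ℕ) (hj : j < n) :
    mid (mid σ j hj) j hj = σ := by
  obtain ⟨x, π⟩ := σ
  unfold mid
  simp [mul_assoc]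

lemma mid_ne (σ : (Fin (n + 1) → Fin k) × Equiv.Perm (Fin (n + 1))) (j : ℕ) (hj : j < n) :
    mid σ j hj ≠ σ := by
  intro h
  have h2 := congrArg (fun τ => τ.2 ⟨j, by omega⟩) h
  unfold mid at h2
  simp only [Equiv.Perm.mul_apply, Equiv.swap_apply_left] at h2
  have := σ.2.injective h2
  simp at this

lemma vtx_mid (σ : (Fin (n + 1) → Fin k) × Equiv.Perm (Fin (n + 1))) (j : ℕ) (hj : j < n)
    (m : Fin (n + 2)) (hm : (m : ℕ) ≠ j + 1) : vtx (mid σ j hj) m = vtx σ m := by
  obtain ⟨x, π⟩ := σ
  funext i
  unfold vtx mid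
  simp only
  have hsymm : (π * Equiv.swap (⟨j, by omega⟩ : Fin (n + 1)) ⟨j + 1, by omega⟩).symm i =
      Equiv.swap (⟨j, by omega⟩ : Fin (n + 1)) ⟨j + 1, by omega⟩ (π.symm i) := by
    rw [Equiv.symm_apply_eq]
    simp
  rw [hsymm]
  congr 1
  by_cases h1 : π.symm i = ⟨j, by omega⟩
  · rw [h1, Equiv.swap_apply_left]
    simp only
    by_cases hh : (m : ℕ) ≤ j
    · rw [if_pos (by omega), if_pos hh]
    · rw [if_neg (by omega), if_neg hh]
  · by_cases h2 : π.symm i = ⟨j + 1, by omega⟩
    · rw [h2, Equiv.swap_apply_right]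
      simp only
      by_cases hh : (m : ℕ) ≤ j
      · rw [if_pos (by omega), if_pos (by omega)]
      · rw [if_neg (by omega), if_neg (by omega)]
    · rw [Equiv.swap_apply_of_ne_of_ne h1 h2]

end moves


/-! ### The parity argument -/

lemma exists_ne_last {N : ℕ} (P : Fin (N + 1) → Prop) :
    (∃ m, m ≠ Fin.last N ∧ P m) ↔ ∃ m : Fin N, P m.castSucc := by
  constructor
  · rintro ⟨m, hm, h⟩
    refine ⟨m.castPred hm, ?_⟩
    simpa using h
  · rintro ⟨m, h⟩
    exact ⟨m.castSucc, (Fin.castSucc_lt_last m).ne, h⟩

lemma exists_ne_zero' {N : ℕ} (P : Fin (N + 1) → Prop) :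
    (∃ m, m ≠ 0 ∧ P m) ↔ ∃ m : Fin N, P m.succ := by
  constructor
  · rintro ⟨m, hm, h⟩
    refine ⟨m.pred hm, ?_⟩
    simpa using h
  · rintro ⟨m, h⟩
    exact ⟨m.succ, Fin.succ_ne_zero m, h⟩

/-- The facet of `σ` opposite to the vertex `j` carries all labels but `some 0`. -/
def Door {n k : ℕ} (l : (Fin (n + 1) → ℕ) → Option (Fin (n + 1)))
    (q : ((Fin (n + 1) → Fin k) × Equiv.Perm (Fin (n + 1))) × Fin (n + 2)) : Prop :=
  ∀ c, c ≠ some 0 → ∃ m, m ≠ q.2 ∧ l (vtx q.1 m) = c

/-- The facet is not on the boundary of the grid. -/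
def Inner {n k : ℕ}
    (q : ((Fin (n + 1) → Fin k) × Equiv.Perm (Fin (n + 1))) × Fin (n + 2)) : Prop :=
  (q.2 = 0 → 0 < (q.1.1 (q.1.2 0) : ℕ)) ∧
    (q.2 = Fin.last (n + 1) → (q.1.1 (q.1.2 (Fin.last n)) : ℕ) + 1 < k)

/-- The other cell with the same facet. -/
def flip {n k : ℕ}
    (q : ((Fin (n + 1) → Fin k) × Equiv.Perm (Fin (n + 1))) × Fin (n + 2)) :
    ((Fin (n + 1) → Fin k) × Equiv.Perm (Fin (n + 1))) × Fin (n + 2) :=
  if h0 : q.2 = 0 then (down q.1, Fin.last (n + 1))
  else if h1 : q.2 = Fin.last (n + 1) then (up q.1, 0)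
  else (mid q.1 ((q.2 : ℕ) - 1) (by
    have h2 := q.2.isLt
    have h3 : (q.2 : ℕ) ≠ 0 := fun h => h0 (Fin.ext (by simpa using h))
    have h4 : (q.2 : ℕ) ≠ n + 1 := fun h => h1 (Fin.ext (by simpa using h))
    omega), q.2)

section

variable {n k : ℕ}

lemma last_ne_zero' : (Fin.last (n + 1) : Fin (n + 2)) ≠ 0 := by
  intro h
  have := congrArg Fin.val h
  simp at this

lemma door_flip (l : (Fin (n + 1) → ℕ) → Option (Fin (n + 1)))
    (q : ((Fin (n + 1) → Fin k) × Equiv.Perm (Fin (n + 1))) × Fin (n + 2)) (hq : Inner q) :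
    Door l (flip q) ↔ Door l q := by
  obtain ⟨σ, j⟩ := q
  unfold flip
  by_cases h0 : j = 0
  · subst h0
    have hpos := hq.1 rfl
    rw [dif_pos rfl]
    unfold Door
    refine forall_congr' fun c => imp_congr_right fun _ => ?_
    simp only
    rw [exists_ne_last (fun m => l (vtx (down σ) m) = c),
      exists_ne_zero' (fun m => l (vtx σ m) = c)]
    refine exists_congr fun m => ?_
    rw [vtx_down σ hpos m]
  · rw [dif_neg h0]
    by_cases h1 : j = Fin.last (n + 1)
    · subst h1
      have hpos := hq.2 rfl
      rw [dif_pos rfl]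
      unfold Door
      refine forall_congr' fun c => imp_congr_right fun _ => ?_
      simp only
      rw [exists_ne_last (fun m => l (vtx σ m) = c),
        exists_ne_zero' (fun m => l (vtx (up σ) m) = c)]
      refine exists_congr fun m => ?_
      rw [← vtx_down (up σ) (up_pos_zero σ hpos) m, down_up σ hpos]
    · rw [dif_neg h1]
      unfold Door
      refine forall_congr' fun c => imp_congr_right fun _ => ?_
      simp only
      refine exists_congr fun m => ?_
      refine and_congr_right fun hm => ?_
      rw [vtx_mid]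
      intro h
      apply hm
      have h3 : (j : ℕ) ≠ 0 := fun h => h0 (Fin.ext (by simpa using h))
      ext
      omega

lemma inner_flip (q : ((Fin (n + 1) → Fin k) × Equiv.Perm (Fin (n + 1))) × Fin (n + 2))
    (hq : Inner q) : Inner (flip q) := by
  obtain ⟨σ, j⟩ := q
  unfold flip
  by_cases h0 : j = 0
  · subst h0
    rw [dif_pos rfl]
    refine ⟨fun h => absurd h last_ne_zero', fun _ => down_pos_last σ (hq.1 rfl)⟩
  · rw [dif_neg h0]
    by_cases h1 : j = Fin.last (n + 1)
    · subst h1
      rw [dif_pos rfl]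
      refine ⟨fun _ => up_pos_zero σ (hq.2 rfl), fun h => absurd h.symm last_ne_zero'⟩
    · rw [dif_neg h1]
      exact ⟨fun h => absurd h h0, fun h => absurd h h1⟩

lemma flip_flip (q : ((Fin (n + 1) → Fin k) × Equiv.Perm (Fin (n + 1))) × Fin (n + 2))
    (hq : Inner q) : flip (flip q) = q := by
  obtain ⟨σ, j⟩ := q
  by_cases h0 : j = 0
  · subst h0
    have : flip (σ, (0 : Fin (n + 2))) = (down σ, Fin.last (n + 1)) := by
      unfold flip; rw [dif_pos rfl]
    rw [this]
    unfold flip
    rw [dif_neg last_ne_zero', dif_pos rfl]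
    simp only
    rw [up_down σ (hq.1 rfl)]
  · by_cases h1 : j = Fin.last (n + 1)
    · subst h1
      have : flip (σ, Fin.last (n + 1)) = (up σ, 0) := by
        unfold flip; rw [dif_neg last_ne_zero', dif_pos rfl]
      rw [this]
      unfold flip
      rw [dif_pos rfl]
      simp only
      rw [down_up σ (hq.2 rfl)]
    · have h2 := j.isLt
      have h3 : (j : ℕ) ≠ 0 := fun h => h0 (Fin.ext (by simpa using h))
      have h4 : (j : ℕ) ≠ n + 1 := fun h => h1 (Fin.ext (by simpa using h))
      have hf : ∀ τ : (Fin (n + 1) → Fin k) × Equiv.Perm (Fin (n + 1)),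
          flip (τ, j) = (mid τ ((j : ℕ) - 1) (by omega), j) := by
        intro τ
        unfold flip
        rw [dif_neg h0, dif_neg h1]
      rw [hf, hf, mid_mid]

lemma flip_ne (q : ((Fin (n + 1) → Fin k) × Equiv.Perm (Fin (n + 1))) × Fin (n + 2)) :
    flip q ≠ q := by
  obtain ⟨σ, j⟩ := q
  unfold flip
  by_cases h0 : j = 0
  · subst h0
    rw [dif_pos rfl]
    intro h
    exact last_ne_zero' (congrArg Prod.snd h)
  · rw [dif_neg h0]
    by_cases h1 : j = Fin.last (n + 1)
    · subst h1
      rw [dif_pos rfl]
      intro h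
      exact last_ne_zero' (congrArg Prod.snd h).symm
    · rw [dif_neg h1]
      intro h
      have h2 := j.isLt
      have h3 : (j : ℕ) ≠ 0 := fun h => h0 (Fin.ext (by simpa using h))
      have h4 : (j : ℕ) ≠ n + 1 := fun h => h1 (Fin.ext (by simpa using h))
      have h5 : (j : ℕ) - 1 < n := by omega
      exact mid_ne σ ((j : ℕ) - 1) h5 (congrArg Prod.fst h)

end

/-- All labels occur on the cell `σ`. -/
def Full {n k : ℕ} (l : (Fin n → ℕ) → Option (Fin n))
    (σ : (Fin n → Fin k) × Equiv.Perm (Fin n)) : Prop :=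
  Function.Surjective fun m => l (vtx σ m)

/-- The labelling induced on the face `y 0 = 0`. -/
def face {n : ℕ} (l : (Fin (n + 1) → ℕ) → Option (Fin (n + 1))) : (Fin n → ℕ) → Option (Fin n) :=
  fun y => match l (Fin.cons 0 y) with
    | none => none
    | some i => if h : i = 0 then none else some (i.pred h)

/-- Cells of the face `y 0 = 0`, as cells of the whole grid. -/
def lift {n k : ℕ} (hk : 0 < k) (τ : (Fin n → Fin k) × Equiv.Perm (Fin n)) :
    (Fin (n + 1) → Fin k) × Equiv.Perm (Fin (n + 1)) :=
  (Fin.cons ⟨0, hk⟩ τ.1, Equiv.Perm.decomposeFin.symm (0, τ.2))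

lemma lift_injective {n k : ℕ} (hk : 0 < k) : Function.Injective (lift (n := n) hk) := by
  rintro ⟨y, ρ⟩ ⟨y', ρ'⟩ h
  unfold lift at h
  simp only [Prod.mk.injEq] at h
  obtain ⟨h1, h2⟩ := h
  have h3 := Equiv.Perm.decomposeFin.symm.injective h2
  simp only [Prod.mk.injEq, true_and] at h3
  have h4 := (Fin.cons_injective2 h1).2
  rw [h3, h4]

lemma vtx_lift {n k : ℕ} (hk : 0 < k) (τ : (Fin n → Fin k) × Equiv.Perm (Fin n))
    (m : Fin (n + 1)) : vtx (lift hk τ) m.succ = Fin.cons 0 (vtx τ m) := by
  obtain ⟨y, ρ⟩ := τ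
  funext i
  unfold lift
  have h0 : (Equiv.Perm.decomposeFin.symm (0, ρ)) 0 = 0 := by simp
  have hs : ∀ i : Fin n, (Equiv.Perm.decomposeFin.symm (0, ρ)) i.succ = (ρ i).succ := by
    intro i; simp
  refine Fin.cases ?_ (fun i => ?_) i
  · unfold vtx
    have : (Equiv.Perm.decomposeFin.symm (0, ρ)).symm 0 = 0 := by
      rw [Equiv.symm_apply_eq, h0]
    simp only [Fin.cons_zero, this]
    simp
  · unfold vtx
    have : (Equiv.Perm.decomposeFin.symm (0, ρ)).symm i.succ = (ρ.symm i).succ := by
      rw [Equiv.symm_apply_eq, hs, Equiv.apply_symm_apply]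
    simp only [Fin.cons_succ, this, Fin.val_succ]
    congr 1
    by_cases hh : (m : ℕ) ≤ (ρ.symm i : ℕ)
    · rw [if_pos (by omega), if_pos hh]
    · rw [if_neg (by omega), if_neg hh]

theorem kuhn_parity {k : ℕ} (hk : 0 < k) : ∀ (n : ℕ) (l : (Fin n → ℕ) → Option (Fin n)),
    (∀ y, (∀ i, y i ≤ k) → ∀ i, y i = 0 → l y ≠ some i) →
    (∀ y, (∀ i, y i ≤ k) → ∀ i, y i = k → l y ≠ none) →
    (∑ σ : (Fin n → Fin k) × Equiv.Perm (Fin n), if Full l σ then (1 : ZMod 2) else 0) = 1 := by
  intro n
  induction n with
  | zero =>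
    intro l _ _
    have : ∀ σ : (Fin 0 → Fin k) × Equiv.Perm (Fin 0), Full l σ := by
      intro σ c
      refine ⟨0, ?_⟩
      have h1 : ∀ a b : Option (Fin 0), a = b := by
        intro a b
        rcases a with _ | a
        · rcases b with _ | b
          · rfl
          · exact b.elim0
        · exact a.elim0
      exact h1 _ _
    simp [this]
  | succ n ih =>
    intro l ha hb
    have step1 : (∑ σ : (Fin (n + 1) → Fin k) × Equiv.Perm (Fin (n + 1)),
        if Full l σ then (1 : ZMod 2) else 0) =
        ∑ q : ((Fin (n + 1) → Fin k) × Equiv.Perm (Fin (n + 1))) × Fin (n + 2),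
          if Door l q then (1 : ZMod 2) else 0 := by
      rw [Fintype.sum_prod_type (fun q : ((Fin (n + 1) → Fin k) ×
        Equiv.Perm (Fin (n + 1))) × Fin (n + 2) => if Door l q then (1 : ZMod 2) else 0)]
      refine Finset.sum_congr rfl fun σ _ => ?_
      have hpar := (door_parity (by simp) (fun m => l (vtx σ m)) (some 0)).symm
      unfold Full Door
      simp only
      convert hpar
    have step2 : (∑ q : ((Fin (n + 1) → Fin k) × Equiv.Perm (Fin (n + 1))) × Fin (n + 2),
          if Door l q then (1 : ZMod 2) else 0) =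
        ∑ q ∈ univ.filter (fun q : ((Fin (n + 1) → Fin k) × Equiv.Perm (Fin (n + 1))) ×
            Fin (n + 2) => ¬ Inner q), if Door l q then (1 : ZMod 2) else 0 := by
      rw [← Finset.sum_filter_add_sum_filter_not univ
        (fun q : ((Fin (n + 1) → Fin k) × Equiv.Perm (Fin (n + 1))) × Fin (n + 2) => Inner q)]
      have : ∑ q ∈ univ.filter (fun q : ((Fin (n + 1) → Fin k) × Equiv.Perm (Fin (n + 1))) ×
            Fin (n + 2) => Inner q), (if Door l q then (1 : ZMod 2) else 0) = 0 := by
        refine Finset.sum_involution (fun q _ => flip q) ?_ ?_ ?_ ?_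
        · intro q hq
          rw [mem_filter] at hq
          have := door_flip l q hq.2
          by_cases hd : Door l q
          · rw [if_pos hd, if_pos (this.2 hd)]; decide
          · rw [if_neg hd, if_neg (fun h => hd (this.1 h))]; decide
        · intro q _ _
          exact flip_ne q
        · intro q hq
          rw [mem_filter] at hq ⊢
          exact ⟨mem_univ _, inner_flip q hq.2⟩
        · intro q hq
          rw [mem_filter] at hq
          exact flip_flip q hq.2
      rw [this, zero_add]
    have step3 : (∑ q ∈ univ.filter (fun q : ((Fin (n + 1) → Fin k) ×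
          Equiv.Perm (Fin (n + 1))) × Fin (n + 2) => ¬ Inner q),
          if Door l q then (1 : ZMod 2) else 0) =
        ∑ τ : (Fin n → Fin k) × Equiv.Perm (Fin n), if Full (face l) τ then (1 : ZMod 2) else 0 := by
      symm
      refine Finset.sum_of_injOn (fun τ => (lift hk τ, (0 : Fin (n + 2)))) ?_ ?_ ?_ ?_
      · intro τ _ τ' _ h
        exact lift_injective hk (congrArg Prod.fst h)
      · intro τ _
        simp only [coe_filter, mem_univ, true_and, Set.mem_ofPred_eq]
        intro h
        have := h.1 rfl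
        unfold lift at this
        simp at this
      · intro q hq hq'
        rw [mem_filter] at hq
        rw [if_neg]
        intro hd
        apply hq'
        obtain ⟨⟨x, π⟩, j⟩ := q
        have hcase : ¬ (j = 0 → 0 < (x (π 0) : ℕ)) ∨
            ¬ (j = Fin.last (n + 1) → (x (π (Fin.last n)) : ℕ) + 1 < k) := by
          by_contra hcon
          push Not at hcon
          exact hq.2 ⟨hcon.1, hcon.2⟩
        rcases hcase with h | h
        · push Not at h
          obtain ⟨hj, hx⟩ := h
          subst hj
          have hx0 : (x (π 0) : ℕ) = 0 := by omega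
          have hπ : π 0 = 0 := by
            by_contra hne
            obtain ⟨m, hm, hlm⟩ := hd (some (π 0)) (by simpa using hne)
            refine ha (vtx (x, π) m) (fun i => vtx_le _ _ _) (π 0) ?_ hlm
            unfold vtx
            have hm0 : (m : ℕ) ≠ 0 := fun h => hm (Fin.ext (by simpa using h))
            simp [hx0]
            omega
          rw [hπ] at hx0
          refine ⟨(Fin.tail x, (Equiv.Perm.decomposeFin π).2), mem_univ _, ?_⟩
          have e1 : (Fin.cons ⟨0, hk⟩ (Fin.tail x) : Fin (n + 1) → Fin k) = x := by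
            have : (⟨0, hk⟩ : Fin k) = x 0 := Fin.ext hx0.symm
            rw [this, Fin.cons_self_tail]
          have e2 : Equiv.Perm.decomposeFin.symm (0, (Equiv.Perm.decomposeFin π).2) = π := by
            have h1 : (Equiv.Perm.decomposeFin π).1 = 0 := by
              have h2 := Equiv.Perm.decomposeFin_symm_apply_zero
                (Equiv.Perm.decomposeFin π).1 (Equiv.Perm.decomposeFin π).2
              rw [Prod.mk.eta, Equiv.symm_apply_apply, hπ] at h2
              exact h2.symm
            rw [← h1, Prod.mk.eta, Equiv.symm_apply_apply]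
          show (lift hk (Fin.tail x, (Equiv.Perm.decomposeFin π).2), (0 : Fin (n + 2))) =
            ((x, π), 0)
          unfold lift
          simp only
          rw [e1, e2]
        · exfalso
          push Not at h
          obtain ⟨hj, hx⟩ := h
          subst hj
          obtain ⟨m, hm, hlm⟩ := hd none (by simp)
          refine hb (vtx (x, π) m) (fun i => vtx_le _ _ _) (π (Fin.last n)) ?_ hlm
          unfold vtx
          have hm0 : (m : ℕ) ≠ n + 1 := fun h => hm (Fin.ext (by simpa using h))
          have hm1 := m.isLt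
          have hx1 := (x (π (Fin.last n))).isLt
          simp only [Equiv.symm_apply_apply, Fin.val_last]
          rw [if_pos (by omega)]
          omega
      · intro τ _
        have key : Full (face l) τ ↔ Door l (lift hk τ, (0 : Fin (n + 2))) := by
          have hne0 : ∀ m, l (Fin.cons 0 (vtx τ m)) ≠ some 0 := by
            intro m
            refine ha _ ?_ 0 (by simp)
            intro i
            refine Fin.cases ?_ (fun i => ?_) i
            · simp
            · simpa using vtx_le τ m i
          have hface_none : ∀ m, face l (vtx τ m) = none ↔ l (Fin.cons 0 (vtx τ m)) = none := by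
            intro m
            unfold face
            have h0 := hne0 m
            rcases hl : l (Fin.cons 0 (vtx τ m)) with _ | i
            · simp
            · rw [hl] at h0
              have : i ≠ 0 := fun h => h0 (by rw [h])
              simp [this]
          have hface_some : ∀ m i, face l (vtx τ m) = some i ↔
              l (Fin.cons 0 (vtx τ m)) = some i.succ := by
            intro m i
            unfold face
            have h0 := hne0 m
            rcases hl : l (Fin.cons 0 (vtx τ m)) with _ | j
            · simp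
            · rw [hl] at h0
              have hj : j ≠ 0 := fun h => h0 (by rw [h])
              simp only [hj, dite_false, Option.some.injEq]
              constructor
              · intro h; rw [← h, Fin.succ_pred]
              · intro h; subst h; simp
          unfold Full Door
          simp only
          constructor
          · intro hs c hc
            rw [exists_ne_zero' (fun m => l (vtx (lift hk τ) m) = c)]
            simp only [vtx_lift]
            rcases c with _ | c
            · obtain ⟨m, hm⟩ := hs none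
              exact ⟨m, (hface_none m).1 hm⟩
            · have hc0 : c ≠ 0 := fun h => hc (by rw [h])
              obtain ⟨m, hm⟩ := hs (some (c.pred hc0))
              exact ⟨m, by simpa using (hface_some m _).1 hm⟩
          · intro hdoor c
            rcases c with _ | c
            · have := hdoor none (by simp)
              rw [exists_ne_zero' (fun m => l (vtx (lift hk τ) m) = none)] at this
              obtain ⟨m, hm⟩ := this
              rw [vtx_lift] at hm
              exact ⟨m, (hface_none m).2 hm⟩
            · have := hdoor (some c.succ) (by simp)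
              rw [exists_ne_zero' (fun m => l (vtx (lift hk τ) m) = some c.succ)] at this
              obtain ⟨m, hm⟩ := this
              rw [vtx_lift] at hm
              exact ⟨m, (hface_some m c).2 hm⟩
        by_cases hf : Full (face l) τ
        · rw [if_pos hf, if_pos (key.1 hf)]
        · rw [if_neg hf, if_neg (fun h => hf (key.2 h))]
    rw [step1, step2, step3]
    apply ih
    · intro y hy i hyi
      unfold face
      have hbd : ∀ i', (Fin.cons 0 y : Fin (n + 1) → ℕ) i' ≤ k := by
        intro i'
        refine Fin.cases ?_ (fun i => ?_) i'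
        · simp
        · simpa using hy i
      have h1 := ha (Fin.cons 0 y) hbd i.succ (by simpa using hyi)
      rcases hl : l (Fin.cons 0 y) with _ | j
      · simp
      · rw [hl] at h1
        simp only
        split_ifs with hj
        · simp
        · intro h
          apply h1
          simp only [Option.some.injEq] at h
          rw [← h, Fin.succ_pred]
    · intro y hy i hyi
      unfold face
      have hbd : ∀ i', (Fin.cons 0 y : Fin (n + 1) → ℕ) i' ≤ k := by
        intro i'
        refine Fin.cases ?_ (fun i => ?_) i'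
        · simp
        · simpa using hy i
      have h1 := hb (Fin.cons 0 y) hbd i.succ (by simpa using hyi)
      have h2 := ha (Fin.cons 0 y) hbd 0 (by simp)
      rcases hl : l (Fin.cons 0 y) with _ | j
      · exact absurd hl h1
      · rw [hl] at h2
        have : j ≠ 0 := fun h => h2 (by rw [h])
        simp [this]

/-- **Kuhn's lemma**: some cell carries all labels. -/
theorem exists_full {n k : ℕ} (hk : 0 < k) (l : (Fin n → ℕ) → Option (Fin n))
    (ha : ∀ y, (∀ i, y i ≤ k) → ∀ i, y i = 0 → l y ≠ some i)
    (hb : ∀ y, (∀ i, y i ≤ k) → ∀ i, y i = k → l y ≠ none) :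
    ∃ σ : (Fin n → Fin k) × Equiv.Perm (Fin n), Full l σ := by
  by_contra h
  push Not at h
  have := kuhn_parity hk n l ha hb
  simp [h] at this

end Pool.Agent.Brouwer
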